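import Mathlib
import Pool.Agent.N610.HX.GR
import Pool.Agent.N610.HX.GH
import Pool.Agent.N610.HX.MO
import Pool.Agent.N610.HX.MR
import Pool.Agent.N610.HX.HL
import Pool.Agent.N610.HX.HU
import Pool.Agent.N610.HX.FN
import Pool.Agent.N610.HX.INC
import Pool.Agent.N610.HX.DEC
import Pool.Agent.N610.HX.EQ2

/-!
# Irregularities of the primes live in homogeneous windows

`R(x, y) = (π(x + y) - π(x)) / (y / log x)`. A window `(x, x + Y]` is homogeneous of density `u`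
between the lengths `y₁` and `y₂` if almost all of its integers `n` satisfy `R(n, y) ≈ u` for ALL
`y₁ ≤ y ≤ y₂` simultaneously.

Every window with too many (too few) primes contains a homogeneous window of at least (at most) the
same density; the uniform asymptotics of the question hold if and only if there are no homogeneous
windows of density `u ≠ 1`; the extremal densities `L_a`, `U_a`, `lim L_a`, `lim U_a` are realised by
homogeneous windows.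
-/

set_option autoImplicit false

open Finset Filter Topology

namespace Pool.Agent.Results.MP_293bbf_nt.HomogeneousWindows

/-- `R(x, y) = (π(x + y) - π(x)) / (y / log x)` -/
noncomputable def R (x y : ℝ) : ℝ :=
  ((Nat.primeCounting ⌊x + y⌋₊ : ℝ) - Nat.primeCounting ⌊x⌋₊) / (y / Real.log x)

/-- `L_a = liminf R(x, (log x) ^ a)` for `x → ∞` -/
noncomputable def L (a : ℝ) : EReal :=
  liminf (fun x : ℝ => ((R x (Real.log x ^ a) : ℝ) : EReal)) atTop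

/-- `U_a = limsup R(x, (log x) ^ a)` for `x → ∞` -/
noncomputable def U (a : ℝ) : EReal :=
  limsup (fun x : ℝ => ((R x (Real.log x ^ a) : ℝ) : EReal)) atTop

/-- the assertion of Q1 -/
def UniformAsymptotics : Prop :=
  ∀ ε : ℝ, 0 < ε → ∃ N : ℝ, 1 < N ∧ ∀ x y : ℝ, N ≤ x → Real.log x ^ N ≤ y → y ≤ x → |R x y - 1| ≤ ε

open Classical in
/-- The window `(x, x + Y]` is homogeneous of density `u`, up to `e`, between the lengths `y₁` and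
`y₂`, with at most `ε Y` exceptions: all but at most `ε Y` of its integers `n` satisfy
`|R(n, y) - u| ≤ e` for ALL real `y₁ ≤ y ≤ y₂`. -/
def Homogeneous (u e ε x Y y₁ y₂ : ℝ) : Prop :=
  (((Ioc ⌊x⌋₊ ⌊x + Y⌋₊).filter (fun n : ℕ => ¬ ∀ y : ℝ, y₁ ≤ y → y ≤ y₂ → |R n y - u| ≤ e)).card : ℝ)
    ≤ ε * Y

/-- (1) and (2): for all `K, A ≥ 1`, `0 < ε ≤ 1` there is `B` such that for all large `x` and all
`(log x) ^ B ≤ Y ≤ x` the window `(x, x + Y]` contains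
* if `R(x, Y) ≥ 1/2`: a homogeneous window of some density `u ≥ R(x, Y)`, of length
`Y' ≥ Y / (log x) ^ B`,
* if `R(x, Y) ≤ 1`: a homogeneous window of some density `u ≤ R(x, Y)`, of length `Y' ≥ Y / B`,
between some lengths `y₀ ≥ (log x') ^ A` and `K y₀ ≤ Y'`.
(3) The uniform asymptotics of Q1 hold if and only if for no `δ > 0` there are arbitrarily large
homogeneous windows of densities `u`, `|u - 1| ≥ δ`, between lengths `y₀ ≥ (log x) ^ A` and `K y₀`,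
for all `K, ε, A`.
(4) For all real `a > 1` outside a countable set: `L_a = l` with `0 ≤ l < 1`, and for every `ε > 0`
there is `κ > 0` such that for arbitrarily large `x` the window `(x, x + (log x) ^ (a + 2 κ)]` is
homogeneous of density `l` between the lengths `(log x) ^ (a - κ)` and `(log x) ^ (a + κ)`; the same
with `U_a = u > 1`, if it is finite.
(5) `L_a` tends to some `l` as `a → ∞`, and for all `ε > 0`, `M ≥ 1`, all large `a` and arbitrarily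
large `x` the window `(x, x + (log x) ^ (M a + 1)]` is homogeneous of density `l` between the lengths
`(log x) ^ a` and `(log x) ^ (M a)`; the same with the limit of `U_a`, if it is finite. -/
theorem result :
    (∀ K ε A : ℝ, 1 ≤ K → 0 < ε → ε ≤ 1 → 1 ≤ A → ∃ B : ℝ, 0 < B ∧
      ∀ᶠ x : ℝ in atTop, ∀ Y : ℝ, Real.log x ^ B ≤ Y → Y ≤ x → 1 / 2 ≤ R x Y →
        ∃ x' Y' y₀ u : ℝ, x ≤ x' ∧ x' + Y' ≤ x + Y ∧ Y ≤ Y' * Real.log x ^ B ∧
          Real.log x' ^ A ≤ y₀ ∧ K * y₀ ≤ Y' ∧ R x Y ≤ u ∧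
          Homogeneous u (ε * (1 + u)) ε x' Y' y₀ (K * y₀)) ∧
    (∀ K ε A : ℝ, 1 ≤ K → 0 < ε → ε ≤ 1 → 1 ≤ A → ∃ B : ℝ, 0 < B ∧
      ∀ᶠ x : ℝ in atTop, ∀ Y : ℝ, Real.log x ^ B ≤ Y → Y ≤ x → R x Y ≤ 1 →
        ∃ x' Y' y₀ u : ℝ, x ≤ x' ∧ x' + Y' ≤ x + Y ∧ Y ≤ Y' * B ∧
          Real.log x' ^ A ≤ y₀ ∧ K * y₀ ≤ Y' ∧ 0 ≤ u ∧ u ≤ R x Y ∧
          Homogeneous u (ε * (1 + u)) ε x' Y' y₀ (K * y₀)) ∧
    (UniformAsymptotics ↔ ∀ δ : ℝ, 0 < δ → ¬ ∀ K ε A : ℝ, 1 ≤ K → 0 < ε → 1 ≤ A →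
      ∃ᶠ x : ℝ in atTop, ∃ u y₀ Y : ℝ, 0 ≤ u ∧ δ ≤ |u - 1| ∧ Real.log x ^ A ≤ y₀ ∧ K * y₀ ≤ Y ∧
        Y ≤ x ∧ Homogeneous u (ε * (1 + u)) ε x Y y₀ (K * y₀)) ∧
    (∃ E : Set ℝ, E.Countable ∧ ∀ a : ℝ, 1 < a → a ∉ E →
      (∃ l : ℝ, L a = (l : EReal) ∧ 0 ≤ l ∧ l < 1 ∧ ∀ ε : ℝ, 0 < ε → ∃ κ : ℝ, 0 < κ ∧ κ < a - 1 ∧
        ∃ᶠ x : ℝ in atTop, Homogeneous l ε ε x (Real.log x ^ (a + 2 * κ))
          (Real.log x ^ (a - κ)) (Real.log x ^ (a + κ))) ∧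
      (∀ u : ℝ, U a = (u : EReal) → 1 < u ∧ ∀ ε : ℝ, 0 < ε → ∃ κ : ℝ, 0 < κ ∧ κ < a - 1 ∧
        ∃ᶠ x : ℝ in atTop, Homogeneous u ε ε x (Real.log x ^ (a + 2 * κ))
          (Real.log x ^ (a - κ)) (Real.log x ^ (a + κ)))) ∧
    (∃ l : ℝ, Tendsto L atTop (𝓝 (l : EReal)) ∧ 0 ≤ l ∧ l ≤ 1 ∧ ∀ ε M : ℝ, 0 < ε → 1 ≤ M →
      ∃ a₀ : ℝ, ∀ a : ℝ, a₀ ≤ a → ∃ᶠ x : ℝ in atTop,
        Homogeneous l ε ε x (Real.log x ^ (M * a + 1)) (Real.log x ^ a) (Real.log x ^ (M * a))) ∧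
    (∃ u : EReal, Tendsto U atTop (𝓝 u) ∧ 1 ≤ u ∧ ∀ v : ℝ, u = (v : EReal) → ∀ ε M : ℝ, 0 < ε →
      1 ≤ M → ∃ a₀ : ℝ, ∀ a : ℝ, a₀ ≤ a → ∃ᶠ x : ℝ in atTop,
        Homogeneous v ε ε x (Real.log x ^ (M * a + 1)) (Real.log x ^ a) (Real.log x ^ (M * a))) := by
  have hI := Pool.Agent.N610.HX.t_INC Pool.Agent.N610.HX.t_GH
  have hD := Pool.Agent.N610.HX.t_DEC Pool.Agent.N610.HX.t_GH
  have hF := Pool.Agent.N610.HX.t_FN (Pool.Agent.N610.HX.t_MO Pool.Agent.N610.HX.t_GR)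
    Pool.Agent.N610.HX.t_MR (Pool.Agent.N610.HX.t_HL Pool.Agent.N610.HX.t_GR Pool.Agent.N610.HX.t_GH)
    (Pool.Agent.N610.HX.t_HU Pool.Agent.N610.HX.t_GR Pool.Agent.N610.HX.t_GH)
  exact ⟨hI, hD, Pool.Agent.N610.HX.t_EQ2 hI hD, hF⟩

end Pool.Agent.Results.MP_293bbf_nt.HomogeneousWindows
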