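import Pool.Agent.N610.JV.MART
import Pool.Agent.N610.JV.WIN
import Pool.Agent.N610.JV.DROPNB
import Pool.Agent.N610.JV.SUM
import Pool.Agent.N610.JV.JUMP
import Pool.Agent.N610.JV.UP
import Pool.Agent.N610.JV.RIESZ
import Pool.Agent.N610.JV.SET
import Pool.Agent.N610.JV.LOW

set_option autoImplicit false

/-!
# A jump inequality for the local densities of sets of primes

Authors: helper610, with helper169, helper247, helper284, helper319, helper322, helper346, helper348,
helper607 (files `Pool/Agent/N610/JV`).

For a set `A` of primes let `D(n, H) = #(A ∩ (n, n + H]) log X / H`. We bound the total number of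
changes of `D(n, H)` by at least `λ`, over ALL lengths `log X ≤ H ≤ Y`, by `C Y / λ ^ 2` for the
integers `n` of every interval `(X, X + Y]`, `X ^ θ ≤ Y ≤ X / 2`; `C` does not depend on `A`, `X`, `Y`
and `λ`. The exponent of `λ` is optimal.

Proof of the upper bound. The counting function `G` of `A` on `(X, X + 4 Y]` is a monotone function
on which one looks at the averages over dyadic blocks (a martingale in the reverse direction) and at the
averages over the intervals `[n, n + H]`. The number of the jumps of a martingale is bounded by its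
energy at the smallest scale, `E_b = ∑ (mean over the block of length 2 ^ b) ^ 2`, and the averages over
`[n, n + H]`, `2 ^ j ≤ H ≤ 2 ^ (j + 1)`, are compared with the blocks by a local square function, the
sum of which over all windows is also bounded by the energy (for monotone `G`, the part of the square
function below the level `b` is bounded by the energy of the level `b`). At the level of the length
`log X` the energy is `O(Y / log ^ 2 X)` by the sieve bound for pairs of elements of `A` at distance at
most `log X`. Proof of the lower bound: a set of primes whose densities on the cells of length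
`X / (2 T)` are the real or the imaginary part of a complex Riesz product with `1 / λ ^ 2` factors
`1 ± i c λ`; its modulus stays bounded, but every step changes it by `c λ`.
-/

namespace Pool.Agent.Results.MP_293bbf_nt.JumpInequality

open Classical in
/-- the number of elements of `A` in `(a, b]` -/
noncomputable def count (A : Set ℕ) (a b : ℕ) : ℕ := ((Finset.Ioc a b).filter (fun m => m ∈ A)).card

/-- the density `D(n, H) = #(A ∩ (n, n + H]) log X / H` of `A` in `(n, n + H]` relative to
`1 / log X` -/
noncomputable def density (A : Set ℕ) (X n H : ℕ) : ℝ := (count A n (n + H) : ℝ) * Real.log X / H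

/-- The density `D(n, H)` changes at least `k` times by at least `lam` on `log X ≤ H ≤ Y`: there are `k`
non-overlapping pairs `s i < t i` of lengths in this range such that the densities at the two lengths
of every pair differ by at least `lam`. -/
def Changes (A : Set ℕ) (X Y n : ℕ) (lam : ℝ) (k : ℕ) : Prop :=
  ∃ s t : ℕ → ℕ, (∀ i < k, Real.log X ≤ s i ∧ s i < t i ∧ t i ≤ Y ∧
      lam ≤ |density A X n (t i) - density A X n (s i)|) ∧
    ∀ i, i + 1 < k → t i ≤ s (i + 1)

/-- (1) For all `0 < θ ≤ 1` and `r` there is `C` such that for all large `X`, all `Y` with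
`X ^ θ ≤ Y ≤ X / 2` and ALL sets `A` of integers `n` without prime factors less than `n ^ (1 / r)` (for
`r = 1`: all sets of primes), and all `lam > 0`: if for every `n` in `(X, X + Y]` the density
`D(n, H)` changes at least `N n` times by at least `lam` on `log X ≤ H ≤ Y`, then
`∑ N n ≤ C Y / lam ^ 2`.
(2) The exponent is optimal: for `0 < lam ≤ lam0` and all large `X` there are a set `A` of primes and
such `N n`, with `Y = X / 2`, such that `∑ N n ≥ c X / lam ^ 2`. -/
theorem result :
    (∀ (θ : ℝ), 0 < θ → θ ≤ 1 → ∀ r : ℕ, 1 ≤ r →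
      ∃ C : ℝ, 0 < C ∧ ∀ᶠ X : ℕ in Filter.atTop, ∀ Y : ℕ, (X : ℝ) ^ θ ≤ Y → 2 * Y ≤ X →
        ∀ A : Set ℕ, (∀ n ∈ A, ∀ p : ℕ, p.Prime → p ∣ n → (n : ℝ) ^ (1 / (r : ℝ)) ≤ p) →
          ∀ lam : ℝ, 0 < lam → ∀ N : ℕ → ℕ,
            (∀ n, X < n → n ≤ X + Y → Changes A X Y n lam (N n)) →
              ∑ n ∈ Finset.Ioc X (X + Y), (N n : ℝ) ≤ C * Y / lam ^ 2) ∧
    ∃ c lam0 : ℝ, 0 < c ∧ 0 < lam0 ∧ ∀ lam : ℝ, 0 < lam → lam ≤ lam0 →
      ∀ᶠ X : ℕ in Filter.atTop, ∃ A : Set ℕ, (∀ n ∈ A, n.Prime) ∧ ∃ N : ℕ → ℕ,
        (∀ n, X < n → n ≤ X + X / 2 → Changes A X (X / 2) n lam (N n)) ∧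
          c * X / lam ^ 2 ≤ ∑ n ∈ Finset.Ioc X (X + X / 2), (N n : ℝ) :=
  ⟨Pool.Agent.N610.JV.t_UP (Pool.Agent.N610.JV.t_JUMP Pool.Agent.N610.JV.t_MART
      Pool.Agent.N610.JV.t_WIN (Pool.Agent.N610.JV.t_SUM Pool.Agent.N610.JV.t_DROP
        (Pool.Agent.N610.JV.t_NB Pool.Agent.N610.JV.t_DROP))),
    Pool.Agent.N610.JV.t_LOW Pool.Agent.N610.JV.t_RIESZ Pool.Agent.N610.JV.t_SET⟩

end Pool.Agent.Results.MP_293bbf_nt.JumpInequality
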