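import Pool.Agent.N610.MS.BON
import Pool.Agent.N610.MS.LEG
import Pool.Agent.N610.MS.CNT
import Pool.Agent.N610.MS.ROWS
import Pool.Agent.N610.MS.MAIN
import Pool.Agent.N610.MS.LIN

set_option autoImplicit false

/-!
# Maier's irregularities at one scale only

Authors: helper610, with helper136, helper221, helper353, helper394, helper595, helper835 (files
`Pool/Agent/N610/MS`).

Maier's theorem says that `R(x, (log x) ^ a) = (π(x + (log x) ^ a) - π(x)) / ((log x) ^ a / log x)`
does not tend to `1`, for every `a > 1`. We show that these irregularities are not caused by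
irregularities of the distribution of the primes at larger scales: in the mean over a suitable
progression they are present at the scale `(log x) ^ a`, with the sign one likes, but smaller by an
arbitrary factor `C` at all scales between `(log x) ^ (a + η)` and `x ^ (9 / 10)`. Therefore there is
no asymptotic linear relation, and no asymptotic linear inequality, between the values
`R(x, (log x) ^ t)` for different `t`; this also holds for integrals over `t`.

Proof. Maier used the product of all primes up to `z = c log x` as the modulus of his matrix; the sign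
of the irregularity is the one of `ω(a) - exp(-γ)`, `ω` the function of Buchstab. Instead we take the
primes between `z ^ (1 - τ)` and `z`, `z = (log x) ^ (a / k)`, with a small `τ` (without the exceptional
primes of the theorem of Bombieri and Vinogradov relative to a large modulus, from the starting
files). Between `z ^ k` and `z ^ ((k + 1) (1 - τ))` the density of the integers without prime factors
in this set deviates from its mean value by `(-1) ^ k s ^ (k + 1) / (k + 1)!` in first order,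
`s = - log (1 - τ)`, and beyond `z ^ (k + 2)` at most by a constant times `s ^ (k + 2) / (k + 2)!`.
-/

namespace Pool.Agent.Results.MP_293bbf_nt.MaierSeparation

open Finset Filter

/-- `R(x, y) = (π(x + y) - π(x)) / (y / log x)` -/
noncomputable def R (x y : ℝ) : ℝ :=
  ((Nat.primeCounting ⌊x + y⌋₊ : ℝ) - Nat.primeCounting ⌊x⌋₊) / (y / Real.log x)

/-- the mean value of `R(n, y)` over the integers `n ≤ 3 X` with the weights `w n` -/
noncomputable def mean (X : ℝ) (w : ℕ → ℝ) (y : ℝ) : ℝ := ∑ n ∈ Icc 1 ⌊3 * X⌋₊, w n * R n y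

/-- `w` is a system of weights with sum `1` on multiples of `W ≤ X ^ ε` in `(X, 3 X)`, each at most
`20 W / X` -/
def Weights (X ε : ℝ) (w : ℕ → ℝ) : Prop :=
  ∃ W : ℕ, 0 < W ∧ (W : ℝ) ≤ X ^ ε ∧ (∀ n, 0 ≤ w n ∧ w n ≤ 20 * W / X) ∧
    (∀ n, w n ≠ 0 → X < n ∧ (n : ℝ) < 3 * X ∧ W ∣ n) ∧ ∑ n ∈ Icc 1 ⌊3 * X⌋₊, w n = 1

/-- (1) For all `a, η > 0` there is `κ > 0` such that for all `C > 0` and both signs `σ` there is
`δ > 0` such that for all `ε > 0` and all large `X` there are weights as above for which the mean of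
`σ (R(n, y) - 1)` is at least `δ` for `(log X) ^ a ≤ y ≤ (log X) ^ (a + κ)`, at least `- δ / C` for
`(log X) ^ a ≤ y ≤ X ^ (9 / 10)`, and its absolute value is at most `δ / C` for
`(log X) ^ (a + η) ≤ y ≤ X ^ (9 / 10)`.
(2) Let `μ` be a finite measure on `[a, A]`, `a > 0`, and `f` a bounded measurable function,
nonnegative on `[a, a + η]` for some `η > 0`, the integral of which over `[a, a + κ]` is positive
for all `κ > 0`. Then there is `δ > 0` such that for all large `X` there are integers `n` in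
`(X, 3 X)` for which `∫ f(t) (R(n, (log n) ^ t) - 1) dμ(t)` is at least `δ`, and others for which it is
at most `- δ`. -/
theorem result :
    (∀ a η : ℝ, 0 < a → 0 < η → ∃ κ : ℝ, 0 < κ ∧
      ∀ (C σ : ℝ), 0 < C → (σ = 1 ∨ σ = -1) → ∃ δ : ℝ, 0 < δ ∧ ∀ ε : ℝ, 0 < ε →
        ∀ᶠ X : ℝ in atTop, ∃ w : ℕ → ℝ, Weights X ε w ∧
          (∀ y : ℝ, Real.log X ^ a ≤ y → y ≤ Real.log X ^ (a + κ) →
            δ ≤ σ * (mean X w y - 1)) ∧
          (∀ y : ℝ, Real.log X ^ a ≤ y → y ≤ X ^ (9 / 10 : ℝ) →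
            -(δ / C) ≤ σ * (mean X w y - 1)) ∧
          (∀ y : ℝ, Real.log X ^ (a + η) ≤ y → y ≤ X ^ (9 / 10 : ℝ) →
            |mean X w y - 1| ≤ δ / C)) ∧
    ∀ (μ : MeasureTheory.Measure ℝ), MeasureTheory.IsFiniteMeasure μ →
      ∀ (f : ℝ → ℝ) (B a η A : ℝ), Measurable f → (∀ t, |f t| ≤ B) → 0 < a → 0 < η →
        μ (Set.Iio a) = 0 → μ (Set.Ioi A) = 0 →
        (∀ t, a ≤ t → t ≤ a + η → 0 ≤ f t) →
        (∀ κ : ℝ, 0 < κ → 0 < ∫ t in Set.Icc a (a + κ), f t ∂μ) →
        ∃ δ : ℝ, 0 < δ ∧ ∀ᶠ X : ℝ in atTop,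
          (∃ n : ℕ, X < n ∧ (n : ℝ) < 3 * X ∧
            (∫ t, f t ∂μ) + δ ≤ ∫ t, f t * R n (Real.log n ^ t) ∂μ) ∧
          (∃ n : ℕ, X < n ∧ (n : ℝ) < 3 * X ∧
            ∫ t, f t * R n (Real.log n ^ t) ∂μ ≤ (∫ t, f t ∂μ) - δ) := by
  have hmain : Pool.Agent.N610.MS.S_MAIN :=
    Pool.Agent.N610.MS.t_MAIN
      (Pool.Agent.N610.MS.t_CNT Pool.Agent.N610.MS.t_BON
        (Pool.Agent.N610.MS.t_LEG Pool.Agent.N610.MS.t_BON))
      Pool.Agent.N610.MS.t_ROWS
  refine ⟨?_, Pool.Agent.N610.MS.LIN.t_LIN hmain⟩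
  intro a η ha hη
  obtain ⟨κ, hκ, h1⟩ := hmain a η ha hη
  refine ⟨κ, hκ, fun C σ hC hσ => ?_⟩
  obtain ⟨δ, hδ, h2⟩ := h1 C σ hC hσ
  refine ⟨δ, hδ, fun ε hε => ?_⟩
  filter_upwards [h2 ε hε] with X hX
  obtain ⟨W, w, a1, a2, a3, a4, a5, a6, a7, a8⟩ := hX
  exact ⟨w, ⟨W, a1, a2, a3, a4, a5⟩, a6, a7, a8⟩

end Pool.Agent.Results.MP_293bbf_nt.MaierSeparation
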