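import Mathlib
import Pool.Agent.N735.CL.Unif

/-!
# Uniform prime asymptotics for almost all patterns, exactly beyond the scale `log² X`

For a sequence `h_1, ..., h_K` of positive integers let `N_k(m)` be the number of the primes among
`m + h_1, ..., m + h_k`. For the sequence `1, 2, ..., K` this is `π(m + k) - π(m)`, the number of the
question, whose ratio to `k / log X` should be close to `1` uniformly for all lengths `k` above a high
power of `log X`; by Maier's theorem no fixed power suffices. We prove, unconditionally, that for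
almost all sequences with entries in `{1, ..., X}` the uniform law begins exactly at the scale
`log² X`:

* for every `ε > 0` there is `A` such that for almost all sequences of every length `K`
  `|N_k(m) - k / log X| ≤ ε k / log X` for all `A log² X ≤ k ≤ K` and all `m ≤ X` at the same time, also
  for sequences with entries in `{1, ..., H}` where `X / log^B X ≤ H ≤ X`;
* for every `A > 0` there is `ε > 0` such that for almost all sequences with entries in
  `{1, ..., X}` both `N_k(m) ≥ (1 + ε) k / log X` and `N_k(m') ≤ (1 - ε) k / log X` occur for some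
  `m, m' ≤ X`, where `k = ⌊A log² X⌋`.

The prime number theorem with an error term, the Hardy-Littlewood asymptotics for the number of
the prime pairs with almost all differences and the upper bound sieve for prime pairs are from the
starting files.
-/

set_option autoImplicit false

namespace Pool.Agent.Results.MP_293bbf_nt.UniformLawForPatterns

open Finset Filter Topology

/-- the sequences of length `K` with entries in `{1, ..., H}` -/
def sequences (H K : ℕ) : Finset (Fin K → ℕ) := Fintype.piFinset fun _ => Icc 1 H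

open Classical in
/-- the proportion of the sequences of length `K` with entries in `{1, ..., H}` which have the
property `B` -/
noncomputable def proportion (H K : ℕ) (B : (Fin K → ℕ) → Prop) : ℝ :=
  (((sequences H K).filter B).card : ℝ) / (sequences H K).card

/-- the number of the primes among `m + h_1, ..., m + h_k` -/
def N {K : ℕ} (h : Fin K → ℕ) (k m : ℕ) : ℕ :=
  (univ.filter fun i : Fin K => (i : ℕ) < k ∧ (m + h i).Prime).card

lemma prop_eq (X K : ℕ) (B : (Fin K → ℕ) → Prop) : proportion X K B = Pool.Agent.N735.CL.PK X K B := by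
  classical
  rw [Pool.Agent.N735.CL.PK_eq]
  unfold proportion sequences
  have h := Pool.Agent.N735.CL.card_Om X K
  unfold Pool.Agent.N735.CL.Om at h ⊢
  rw [h]
  push_cast
  rfl

lemma interval (K k m : ℕ) (hk : k ≤ K) : (N (fun i : Fin K => (i : ℕ) + 1) k m : ℝ) =
    (Nat.primeCounting (m + k) : ℝ) - Nat.primeCounting m := by
  rw [← Pool.Agent.N735.CL.sum_pr]
  have h1 : ∑ h ∈ Icc 1 k, Pool.Agent.N735.CL.pr m h = (((Icc 1 k).filter fun h => (m + h).Prime).card : ℝ) := by
    rw [card_filter]
    push_cast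
    rfl
  rw [h1]
  congr 1
  unfold N
  apply Finset.card_bij (fun (i : Fin K) _ => (i : ℕ) + 1)
  · intro i hi
    rw [mem_filter] at hi ⊢
    rw [mem_Icc]
    exact ⟨⟨by omega, hi.2.1⟩, hi.2.2⟩
  · intro i _ j _ hij
    ext
    omega
  · intro x hx
    rw [mem_filter, mem_Icc] at hx
    refine ⟨⟨x - 1, by omega⟩, mem_filter.2 ⟨mem_univ _, by simp only; omega, ?_⟩, by simp only; omega⟩
    have e : m + (x - 1 + 1) = m + x := by omega
    show (m + (x - 1 + 1)).Prime
    rw [e]
    exact hx.2

theorem result :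
    -- the sequence of consecutive integers
    (∀ K k m : ℕ, k ≤ K → (N (fun i : Fin K => (i : ℕ) + 1) k m : ℝ) =
      (Nat.primeCounting (m + k) : ℝ) - Nat.primeCounting m) ∧
    -- the uniform law beyond `log² X`
    (∀ (B : ℕ) (ε θ : ℝ), 0 < ε → 0 < θ → ∃ A : ℝ, 0 < A ∧ ∀ᶠ X : ℕ in atTop, ∀ H : ℕ,
      (X : ℝ) / Real.log X ^ B ≤ H → H ≤ X → ∀ K : ℕ,
        proportion H K (fun h => ¬ ∀ k : ℕ, k ≤ K → A * Real.log X ^ 2 ≤ k → ∀ m ∈ Icc 1 X,
          |(N h k m : ℝ) - k / Real.log X| ≤ ε * (k / Real.log X)) ≤ θ) ∧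
    -- its failure at the scale `log² X`
    (∀ A : ℝ, 0 < A → ∃ ε : ℝ, 0 < ε ∧ ∀ θ : ℝ, 0 < θ → ∀ᶠ X : ℕ in atTop, ∀ K : ℕ,
      A * Real.log X ^ 2 ≤ K → ∀ k : ℕ, k = ⌊A * Real.log X ^ 2⌋₊ →
        proportion X K (fun h => ¬ ((∃ m ∈ Icc 1 X, (1 + ε) * (k / Real.log X) ≤ N h k m) ∧
          ∃ m ∈ Icc 1 X, (N h k m : ℝ) ≤ (1 - ε) * (k / Real.log X))) ≤ θ) := by
  refine ⟨interval, ?_, ?_⟩
  · intro B ε θ hε hθ
    obtain ⟨A, hA, h⟩ := Pool.Agent.N735.CL.unif_law B ε θ hε hθ
    refine ⟨A, hA, ?_⟩
    filter_upwards [h] with X hX H h1 h2 K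
    rw [prop_eq]
    exact hX H h1 h2 K
  · intro A hA
    obtain ⟨ε, hε, h⟩ := Pool.Agent.N735.CL.sharp_scale A hA
    refine ⟨ε, hε, fun θ hθ => ?_⟩
    filter_upwards [h θ hθ] with X hX K hK k hk
    subst hk
    rw [prop_eq]
    exact hX K hK

end Pool.Agent.Results.MP_293bbf_nt.UniformLawForPatterns
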